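import Pool.Agent.Sims.BddAll

set_option autoImplicit false

namespace Pool.Agent.Results.MP_217908_al.SimsValue

/-- the free group of rank 3 -/
abbrev F : Type := FreeGroup (Fin 3)

/-- the letter `x_i` (for `(i, true)`) or `x_i⁻¹` (for `(i, false)`) -/
def letter (x : Fin 3 × Bool) : F := if x.2 then FreeGroup.of x.1 else (FreeGroup.of x.1)⁻¹

/-- cyclic words: conjugacy classes -/
abbrev CyclicWord : Type := ConjClasses F

/-- cyclic length: the minimum of the reduced length over the class -/
noncomputable def len (c : CyclicWord) : ℕ :=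
  sInf {n | ∃ g : F, ConjClasses.mk g = c ∧ g.norm = n}

/-- the action of automorphisms on cyclic words -/
def act (φ : F ≃* F) (c : CyclicWord) : CyclicWord := ConjClasses.map φ.toMonoidHom c

/-- Whitehead automorphisms of the first kind (permuting the letters) or of the second kind (fixing a
letter `a`, every other generator `x` being sent to `x`, `x a`, `a⁻¹ x` or `a⁻¹ x a`) -/
def IsWhitehead (φ : F ≃* F) : Prop :=
  (∀ x, ∃ y, φ (letter x) = letter y) ∨
  ∃ a : Fin 3 × Bool, φ (letter a) = letter a ∧ ∀ i : Fin 3, i ≠ a.1 →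
    (φ (FreeGroup.of i) = FreeGroup.of i ∨ φ (FreeGroup.of i) = FreeGroup.of i * letter a ∨
      φ (FreeGroup.of i) = (letter a)⁻¹ * FreeGroup.of i ∨
      φ (FreeGroup.of i) = (letter a)⁻¹ * FreeGroup.of i * letter a)

/-- Whitehead-minimal cyclic words -/
def WhiteheadMinimal (c : CyclicWord) : Prop :=
  ∀ φ : F ≃* F, IsWhitehead φ → len c ≤ len (act φ c)

/-- `A(u)`: the members of the automorphic orbit that have the same cyclic length -/
def A (c : CyclicWord) : Set CyclicWord := {d | (∃ φ : F ≃* F, d = act φ c) ∧ len d = len c}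

open Pool.Agent.Sims in
theorem result (m : ℕ) (hm : 11 ≤ m) :
    (∀ c : CyclicWord, (A c).Finite) ∧
    IsGreatest {k : ℤ | ∃ c : CyclicWord, WhiteheadMinimal c ∧ len c = m ∧ k = (A c).ncard}
      (48 * (m : ℤ) ^ 3 - 480 * (m : ℤ) ^ 2 + 1104 * (m : ℤ) - 672) := by
  have hWO : ∀ c : CyclicWord, WhiteheadMinimal c → OMin c := by
    intro c hmin
    refine OMin_of_WMin (fun z B hz hz' => ?_)
    refine hmin (wh z B) (Or.inr ⟨z, ?_, ?_⟩)
    · have h := wh_lett_self z B
      have e : letter z = lett z := by
        rcases z with ⟨i, b⟩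
        cases b with
        | true => simp [letter, lett_true]
        | false => simp [letter, lett_false]
      rw [e]; exact h
    · intro i hi
      have e : letter z = lett z := by
        rcases z with ⟨i, b⟩
        cases b with
        | true => simp [letter, lett_true]
        | false => simp [letter, lett_false]
      have h := wh_lett_ne z B (x := (i, true)) hi
      rw [lett_true] at h
      rw [e, h]
      by_cases h1 : B (i, true) = true <;> by_cases h2 : B (bar (i, true)) = true <;>
        simp [h1, h2]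
  have hF : ((48 * F3 m : ℕ) : ℤ) = 48 * (m : ℤ) ^ 3 - 480 * (m : ℤ) ^ 2 + 1104 * (m : ℤ) - 672 := by
    unfold F3
    push_cast [Nat.cast_sub (show 1 ≤ m by omega), Nat.cast_sub (show 2 ≤ m by omega),
      Nat.cast_sub (show 7 ≤ m by omega)]
    ring
  obtain ⟨⟨w, hw, hl, hO, hk⟩, hub⟩ := max_all hm
  refine ⟨fun c => orb_fin c, ?_, ?_⟩
  · refine ⟨cls w, fun φ _ => hO φ, ?_, ?_⟩
    · have h1 := cycLen_cls hw
      rw [hl] at h1
      exact h1
    · rw [← hF]
      exact_mod_cast hk
  · rintro k ⟨c, hc, hlen, rfl⟩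
    rw [← hF]
    have h1 : (orb c).ncard ≤ 48 * F3 m := by
      refine hub ⟨rep c, rep_CR c, ?_, ?_, ?_⟩
      · rw [← cycLen_eq_rep c]
        exact hlen
      · rw [cls_rep]
        exact hWO c hc
      · rw [cls_rep]
    exact_mod_cast h1

end Pool.Agent.Results.MP_217908_al.SimsValue
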